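import Pool.Agent.H5.TP.Targets
import Pool.Agent.H5.BW.PA

/-!
# RSQ: the block components of class functions on the sections of `ℓ`-elements, for `Q`
-/

set_option autoImplicit false

open scoped Classical ComplexConjugate

namespace Pool.Agent.H98.TP

open AMc AMe AMt AMb AMw Pool.Agent.H77.EA.All Pool.Agent.H5.BF.All Pool.Agent.H3.LO
  Pool.Agent.H5.BF Pool.Agent.H4.BF Pool.Agent.H77.EA Pool.Agent.H5.BW

/-- The second main theorem for a subgroup `Q` with `br Q e = e'`. -/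
theorem tmtQ {F : Type} [Field F] {π : integralClosure ℤ ℂ →+* F}
    (hπ : Function.Surjective π) (ℓ : ℕ) [Fact ℓ.Prime] [CharP F ℓ] {Γ : Type} [Group Γ]
    [Fintype Γ] {N P : Subgroup Γ} {χ ψ : Γ → ℂ} (hχ : χ ∈ IrrS N) (hPp : IsPGroup ℓ P)
    (hPN : P ≤ N) (hψ : ψ ∈ IrrS (N ⊓ Subgroup.normalizer (P : Set Γ)))
    (hbr0 : ∀ e e', Be π ℓ N χ e → Be π ℓ (N ⊓ Subgroup.normalizer (P : Set Γ)) ψ e' →
      br P e = e')
    {fs fs' : Finset (Γ → ℂ)} (hfs : Fs N fs)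
    (hfs' : Fs (N ⊓ Subgroup.normalizer (P : Set Γ)) fs') {u s : Γ}
    (hr : ∃ r, u ^ (ℓ ^ r) = 1) (huH : u ∈ N ⊓ Subgroup.normalizer (P : Set Γ))
    (huC : ∀ g ∈ N, g * u = u * g → g ∈ Subgroup.centralizer (P : Set Γ)) (hsN : s ∈ N)
    (hs : ¬ ℓ ∣ orderOf s) (hus : u * s = s * u) (θ : Γ → ℂ) (hθ : ∀ g, IsIntegral ℤ (θ g))
    (hθc : ∀ n ∈ N, ∀ g, θ (n * g * n⁻¹) = θ g) :
    ev θ (Ec π N fs χ * MonoidAlgebra.single (s * u) 1) =
      ev θ (Ec π (N ⊓ Subgroup.normalizer (P : Set Γ)) fs' ψ *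
        MonoidAlgebra.single (s * u) 1) := by
  obtain ⟨H, hH⟩ : ∃ H, H = N ⊓ Subgroup.normalizer (P : Set Γ) := ⟨_, rfl⟩
  rw [← hH] at hψ hfs' hbr0 huH ⊢
  have hHN : H ≤ N := by rw [hH]; exact inf_le_left
  have hHP : H ≤ Subgroup.normalizer (P : Set Γ) := by rw [hH]; exact inf_le_right
  have hPH : P ≤ H := by
    rw [hH]
    exact le_inf hPN Subgroup.le_normalizer
  have hCP : Subgroup.centralizer (P : Set Γ) ≤ Subgroup.normalizer (P : Set Γ) :=
    Subgroup.centralizer_le_normalizer _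
  have huN : u ∈ N := hHN huH
  have hsH : s ∈ H := by
    rw [hH]
    exact Subgroup.mem_inf.2 ⟨hsN, hCP (huC s hsN hus.symm)⟩
  obtain ⟨e, hBe⟩ := Be_exists (π := π) hπ ℓ hχ
  obtain ⟨e', hBe'⟩ := Be_exists (π := π) hπ ℓ hψ
  have hbr : br P e = e' := hbr0 e e' hBe hBe'
  have hbr' : br P e' = e' := br_self hπ ℓ hPp hPH hHP hBe'.mem hBe'.idem
  obtain ⟨d, hd, hrd, hLd⟩ := Ec_lf hπ ℓ hfs hχ hBe
  obtain ⟨d', hd', hrd', hLd'⟩ := Ec_lf hπ ℓ hfs' hψ hBe'
  obtain ⟨E, hE⟩ : ∃ E, E = Ec π N fs χ := ⟨_, rfl⟩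
  obtain ⟨E', hE'⟩ : ∃ E', E' = Ec π H fs' ψ := ⟨_, rfl⟩
  have hEm : E ∈ ZA ℂ N N := by rw [hE]; exact Ec_mem hfs
  have hEm' : E' ∈ ZA ℂ H H := by rw [hE']; exact Ec_mem hfs'
  have hEi : E * E = E := by rw [hE]; exact Ec_idem hfs
  have hEi' : E' * E' = E' := by rw [hE']; exact Ec_idem hfs'
  rw [← hE, ← hE']
  rw [← hE] at hLd
  rw [← hE'] at hLd'
  have hsup' : ∀ g, g ∉ N → E'.coeff g = 0 := fun g hg => hEm'.1 g fun h => hg (hHN h)
  have hcomm : E' * E = E * E' := comm_ZA hEm hsup'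
  have hLF := AllU.uLF F π hπ Γ
  -- vanishing for an idempotent
  obtain ⟨r, hr⟩ := hr
  have hvan : ∀ (w : MonoidAlgebra ℂ Γ) (wb : MonoidAlgebra F Γ), w * w = w →
      (∀ g, g ∉ N → w.coeff g = 0) → (∀ n ∈ H, ∀ g, w.coeff (n * g * n⁻¹) = w.coeff g) →
      Lf π ((d * d') • w) ((rd π d * rd π d') • wb) →
      (∀ g ∈ N, g * u = u * g → wb.coeff g = 0) →
      ev θ (w * MonoidAlgebra.single (s * u) 1) = 0 := by
    intro w wb hw hwN hwH hL h0
    have hc : ∀ g, ((d * d') • w).coeff g = d * d' * w.coeff g := by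
      intro g
      rw [MonoidAlgebra.coeff_smul, Finsupp.smul_apply, smul_eq_mul]
    refine vn hπ (ℓ := ℓ) gL1 gL2 AllU.uLF N w hw hwN (d * d') (hd.mul hd') ?_ ?_ u s r hr hsN hs hus
      (hwH u huH) (hwH s hsH) θ hθ hθc ?_
    · rw [rd_mul hπ AllU.uLF hd hd']
      exact mul_ne_zero hrd hrd'
    · intro g
      rw [← hc]
      exact (hL g).1
    · intro g hg
      by_cases hgN : g ∈ N
      · rw [← hc, (hL g).2, MonoidAlgebra.coeff_smul, Finsupp.smul_apply, h0 g hgN hg, smul_zero]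
      · rw [hwN g hgN, mul_zero]
        exact rd_zero hπ
  have hzero : ∀ a b : MonoidAlgebra F Γ, a ∈ ZA F ⊤ P → b ∈ ZA F ⊤ P →
      br P a * br P b = 0 → ∀ g ∈ N, g * u = u * g → (a * b).coeff g = 0 := by
    intro a b ha hb hab g hg hgu
    have h1 := fD1 F ℓ Γ P hPp a ha b hb
    rw [hab] at h1
    have h2 : (br P (a * b)).coeff g = 0 := by
      rw [h1]
      rfl
    rw [br_coeff, if_pos (huC g hg hgu)] at h2
    exact h2
  have heT := mem_ZA_top hPN hBe.mem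
  have heT' := mem_ZA_top hPH hBe'.mem
  have hone : (1 : MonoidAlgebra F Γ) ∈ ZA F ⊤ P := Subalgebra.one_mem _
  have hbr1 : br P (1 : MonoidAlgebra F Γ) = 1 := by
    ext g
    show (br P (1 : MonoidAlgebra F Γ)).coeff g = (1 : MonoidAlgebra F Γ).coeff g
    rw [br_coeff]
    split_ifs with h
    · rfl
    · symm
      rw [MonoidAlgebra.one_def, MonoidAlgebra.coeff_single, Finsupp.single_apply, if_neg]
      rintro rfl
      exact h (Subgroup.one_mem _)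
  have hbrsub : ∀ a b : MonoidAlgebra F Γ, br P (a - b) = br P a - br P b := by
    intro a b
    ext g
    show (br P (a - b)).coeff g = (br P a - br P b).coeff g
    rw [MonoidAlgebra.coeff_sub, Finsupp.sub_apply, br_coeff, br_coeff, br_coeff,
      MonoidAlgebra.coeff_sub, Finsupp.sub_apply]
    split_ifs
    · rfl
    · rw [sub_zero]
  -- the lifts
  have hL1 : Lf π (1 : MonoidAlgebra ℂ Γ) 1 := hLF.2.2.1.1
  have hsubL : ∀ (a b : MonoidAlgebra ℂ Γ) (a' b' : MonoidAlgebra F Γ), Lf π a a' → Lf π b b' →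
      Lf π (a - b) (a' - b') := by
    intro a b a' b' h1 h2
    rw [sub_eq_add_neg, sub_eq_add_neg]
    exact (hLF.1 a (-b) a' (-b') h1 (hLF.1 b b b' b' h2 h2).2.2.1).1
  have hLw : Lf π ((d * d') • (E * (1 - E'))) ((rd π d * rd π d') • (e * (1 - e'))) := by
    have h1 : Lf π (d' • (1 : MonoidAlgebra ℂ Γ)) (rd π d' • (1 : MonoidAlgebra F Γ)) :=
      (hLF.1 1 1 1 1 hL1 hL1).2.2.2.2.2.2 d' hd'
    have h2 := hsubL _ _ _ _ h1 hLd'
    have h3 := (hLF.1 _ _ _ _ hLd h2).2.1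
    have h4 : (d * d') • (E * (1 - E')) = (d • E) * (d' • 1 - d' • E') := by
      rw [← smul_sub, smul_mul_smul_comm]
    have h5 : (rd π d * rd π d') • (e * (1 - e')) = (rd π d • e) * (rd π d' • 1 - rd π d' • e') := by
      rw [← smul_sub, smul_mul_smul_comm]
    rw [h4, h5]
    exact h3
  have hLw' : Lf π ((d * d') • (E' * (1 - E))) ((rd π d * rd π d') • (e' * (1 - e))) := by
    have h1 : Lf π (d • (1 : MonoidAlgebra ℂ Γ)) (rd π d • (1 : MonoidAlgebra F Γ)) :=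
      (hLF.1 1 1 1 1 hL1 hL1).2.2.2.2.2.2 d hd
    have h2 := hsubL _ _ _ _ h1 hLd
    have h3 := (hLF.1 _ _ _ _ hLd' h2).2.1
    have h4 : (d * d') • (E' * (1 - E)) = (d' • E') * (d • 1 - d • E) := by
      rw [← smul_sub, smul_mul_smul_comm, mul_comm d]
    have h5 : (rd π d * rd π d') • (e' * (1 - e)) = (rd π d' • e') * (rd π d • 1 - rd π d • e) := by
      rw [← smul_sub, smul_mul_smul_comm, mul_comm (rd π d)]
    rw [h4, h5]
    exact h3
  have hsupp : ∀ a b : MonoidAlgebra ℂ Γ, (∀ g, g ∉ N → a.coeff g = 0) →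
      (∀ g, g ∉ N → b.coeff g = 0) → ∀ g, g ∉ N → (a * b).coeff g = 0 := by
    intro a b ha hb g hg
    rw [coeff_mul_group]
    refine Finset.sum_eq_zero fun x _ => ?_
    by_cases hx : x ∈ N
    · rw [hb, mul_zero]
      intro h
      exact hg (by simpa using N.mul_mem hx h)
    · rw [ha x hx, zero_mul]
  have hEH : E ∈ ZA ℂ N H := ⟨hEm.1, fun n hn g => hEm.2 n (hHN hn) g⟩
  have hEH' : E' ∈ ZA ℂ N H := ⟨hsup', hEm'.2⟩
  have h1H : (1 : MonoidAlgebra ℂ Γ) ∈ ZA ℂ N H := Subalgebra.one_mem _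
  have hw1 : E * (1 - E') ∈ ZA ℂ N H := Subalgebra.mul_mem _ hEH (Subalgebra.sub_mem _ h1H hEH')
  have hw2 : E' * (1 - E) ∈ ZA ℂ N H := Subalgebra.mul_mem _ hEH' (Subalgebra.sub_mem _ h1H hEH)
  have hv1 : ev θ (E * (1 - E') * MonoidAlgebra.single (s * u) 1) = 0 := by
    refine hvan _ (e * (1 - e')) ?_ hw1.1 hw1.2 hLw ?_
    · have h1 : E * (1 - E') = E - E * E' := by rw [mul_sub, mul_one]
      have h2 : (E * E') * (E * E') = E * E' := by
        calc (E * E') * (E * E') = E * (E' * E) * E' := by simp only [mul_assoc]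
          _ = E * (E * E') * E' := by rw [hcomm]
          _ = (E * E) * (E' * E') := by simp only [mul_assoc]
          _ = E * E' := by rw [hEi, hEi']
      have h3 : E * (E * E') = E * E' := by rw [← mul_assoc, hEi]
      have h4 : (E * E') * E = E * E' := by rw [mul_assoc, hcomm, ← mul_assoc, hEi]
      rw [h1, sub_mul, mul_sub, mul_sub, hEi, h3, h4, h2]
      abel
    · refine hzero e (1 - e') heT (Subalgebra.sub_mem _ hone heT') ?_
      rw [hbrsub, hbr1, hbr, hbr', mul_sub, mul_one, hBe'.idem, sub_self]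
  have hv2 : ev θ (E' * (1 - E) * MonoidAlgebra.single (s * u) 1) = 0 := by
    refine hvan _ (e' * (1 - e)) ?_ hw2.1 hw2.2 hLw' ?_
    · have h1 : E' * (1 - E) = E' - E' * E := by rw [mul_sub, mul_one]
      have h2 : (E' * E) * (E' * E) = E' * E := by
        calc (E' * E) * (E' * E) = E' * (E * E') * E := by simp only [mul_assoc]
          _ = E' * (E' * E) * E := by rw [hcomm]
          _ = (E' * E') * (E * E) := by simp only [mul_assoc]
          _ = E' * E := by rw [hEi, hEi']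
      have h3 : E' * (E' * E) = E' * E := by rw [← mul_assoc, hEi']
      have h4 : (E' * E) * E' = E' * E := by rw [mul_assoc, ← hcomm, ← mul_assoc, hEi']
      rw [h1, sub_mul, mul_sub, mul_sub, hEi', h3, h4, h2]
      abel
    · refine hzero e' (1 - e) heT' (Subalgebra.sub_mem _ hone heT) ?_
      rw [hbrsub, hbr1, hbr, hbr', mul_sub, mul_one, hBe'.idem, sub_self]
  have h1 : ev θ (E * MonoidAlgebra.single (s * u) 1) =
      ev θ (E * E' * MonoidAlgebra.single (s * u) 1) := by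
    rw [mul_sub, mul_one, sub_mul, ev_sub, sub_eq_zero] at hv1
    exact hv1
  have h2 : ev θ (E' * MonoidAlgebra.single (s * u) 1) =
      ev θ (E' * E * MonoidAlgebra.single (s * u) 1) := by
    rw [mul_sub, mul_one, sub_mul, ev_sub, sub_eq_zero] at hv2
    exact hv2
  rw [h1, h2, hcomm]

/-- the second main theorem for complex class functions -/
theorem tmtQ' {F : Type} [Field F] {π : integralClosure ℤ ℂ →+* F}
    (hπ : Function.Surjective π) (ℓ : ℕ) [Fact ℓ.Prime] [CharP F ℓ] {Γ : Type} [Group Γ]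
    [Fintype Γ] {N P : Subgroup Γ} {χ ψ : Γ → ℂ} (hχ : χ ∈ IrrS N) (hPp : IsPGroup ℓ P)
    (hPN : P ≤ N) (hψ : ψ ∈ IrrS (N ⊓ Subgroup.normalizer (P : Set Γ)))
    (hbr0 : ∀ e e', Be π ℓ N χ e → Be π ℓ (N ⊓ Subgroup.normalizer (P : Set Γ)) ψ e' →
      br P e = e')
    {fs fs' : Finset (Γ → ℂ)} (hfs : Fs N fs)
    (hfs' : Fs (N ⊓ Subgroup.normalizer (P : Set Γ)) fs') {u s : Γ}
    (hr : ∃ r, u ^ (ℓ ^ r) = 1) (huH : u ∈ N ⊓ Subgroup.normalizer (P : Set Γ))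
    (huC : ∀ g ∈ N, g * u = u * g → g ∈ Subgroup.centralizer (P : Set Γ)) (hsN : s ∈ N)
    (hs : ¬ ℓ ∣ orderOf s) (hus : u * s = s * u) {θ : Γ → ℂ}
    (hθc : ∀ n ∈ N, ∀ g, θ (n * g * n⁻¹) = θ g) :
    prj (Ec π N fs χ) θ (s * u) =
      prj (Ec π (N ⊓ Subgroup.normalizer (P : Set Γ)) fs' ψ) θ (s * u) := by
  have key := cf_ext N ((LinearMap.proj (s * u)).comp (prj (Ec π N fs χ)) -
    (LinearMap.proj (s * u)).comp (prj (Ec π (N ⊓ Subgroup.normalizer (P : Set Γ)) fs' ψ)))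
    (fun g => False) ?_ θ hθc ?_
  · exact sub_eq_zero.1 key
  · intro θ' hθ' hθc' _
    show prj (Ec π N fs χ) θ' (s * u) -
      prj (Ec π (N ⊓ Subgroup.normalizer (P : Set Γ)) fs' ψ) θ' (s * u) = 0
    rw [prj_eq, prj_eq, sub_eq_zero]
    exact tmtQ hπ ℓ hχ hPp hPN hψ hbr0 hfs hfs' hr huH huC hsN hs hus θ' hθ' hθc'
  · intro g hg
    exact hg.elim

/-- RSQ: the block components of class functions on the sections of `ℓ`-elements -/
theorem pf_RSQ (FMQ : T_FMQ) : T_RSQ := by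
  intro F _ π hπ ℓ _ _ Γ _ _ N P Q Z x ν χ ψ hM E E' hE hE' f hf u hu s hs hsr hus hC'
  have hPp : IsPGroup ℓ P := hM.dfh.1
  have hPN : P ≤ N := hM.dfh.2.1
  obtain ⟨-, hcyc⟩ := hM.cyc
  have hcom : ∀ p ∈ P, ∀ p' ∈ P, p * p' = p' * p := by
    intro p hp p' hp'
    obtain ⟨z, hz, k, rfl⟩ := hcyc p hp
    obtain ⟨z', hz', k', rfl⟩ := hcyc p' hp'
    have h1 := hM.cen.cen z (Subgroup.mem_inf.1 hz).1
    have h2 := hM.cen.cen z' (Subgroup.mem_inf.1 hz').1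
    have hxN : x ∈ N := hPN hM.cyc.1
    have h3 := h1 _ (N.pow_mem hxN k')
    have h4 := h2 _ (N.pow_mem hxN k)
    have h5 := h1 z' (hPN (Subgroup.mem_inf.1 hz').2)
    calc z * x ^ k * (z' * x ^ k') = z * (x ^ k * z') * x ^ k' := by simp only [mul_assoc]
      _ = z * (z' * x ^ k) * x ^ k' := by rw [h4]
      _ = z * z' * (x ^ k * x ^ k') := by simp only [mul_assoc]
      _ = z' * z * (x ^ k' * x ^ k) := by rw [h5, ← pow_add, ← pow_add, add_comm]
      _ = z' * (z * x ^ k') * x ^ k := by simp only [mul_assoc]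
      _ = z' * (x ^ k' * z) * x ^ k := by rw [h3]
      _ = z' * x ^ k' * (z * x ^ k) := by simp only [mul_assoc]
  have hQp : IsPGroup ℓ Q := hPp.to_le hM.QP
  have hQN : Q ≤ N := hM.QP.trans hPN
  have huN : u ∈ N := hPN hu
  have huQ : u ∈ Subgroup.centralizer (Q : Set Γ) := by
    rw [Subgroup.mem_centralizer_iff]
    intro q hq
    exact hcom q (hM.QP hq) u hu
  have huH : u ∈ N ⊓ Subgroup.normalizer (Q : Set Γ) :=
    Subgroup.mem_inf.2 ⟨huN, Subgroup.centralizer_le_normalizer _ huQ⟩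
  have hsH : s ∈ N ⊓ Subgroup.normalizer (Q : Set Γ) :=
    Subgroup.mem_inf.2 ⟨hs, Subgroup.centralizer_le_normalizer _ (hC' s hs hus.symm)⟩
  have hr : ∃ r, u ^ (ℓ ^ r) = 1 := by
    obtain ⟨r, hr⟩ := hPp ⟨u, hu⟩
    refine ⟨r, ?_⟩
    have := congrArg Subtype.val hr
    simpa using this
  obtain ⟨fs, hfs, -⟩ := fS9 Γ N
  obtain ⟨fs', hfs', -⟩ := fS9 Γ (N ⊓ Subgroup.normalizer (Q : Set Γ))
  rw [BeC_iff hfs] at hE
  rw [BeC_iff hfs'] at hE'
  subst hE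
  subst hE'
  rw [single_comm (Ec_mem hfs) (N.mul_mem huN hs), single_comm (Ec_mem hfs')
    (Subgroup.mul_mem _ huH hsH), hus, ← prj_eq, ← prj_eq]
  exact tmtQ' hπ ℓ hM.chi hQp hQN hM.psi
    (fun e e' he he' => FMQ F π hπ ℓ Γ N P Q Z x ν χ ψ hM e e' he he') hfs hfs' hr huH hC' hs hsr
    hus hf

end Pool.Agent.H98.TP
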